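import Pool.Agent.Lib.MP_426b05_co.H33.Basic

/-!
(ANS): the answers of a strategy, read off from the sequence of the offered sets.
-/

set_option autoImplicit false

namespace Pool.Agent.Lib.MP_426b05_co.H33

open Finset

theorem run_append {n : ℕ} (σ : Strat n) (us : List (Finset (Fin n))) (U : Finset (Fin n)) :
    run σ (us ++ [U]) = run σ us ++ [(U, σ (run σ us) U)] := by
  simp [run, List.foldl_append]

theorem run_length {n : ℕ} (σ : Strat n) (us : List (Finset (Fin n))) : (run σ us).length = us.length := by
  induction us using List.reverseRecOn with
  | nil => rfl
  | append_singleton us U ih => rw [run_append]; simp [ih]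

theorem mem_run {n : ℕ} (σ : Strat n) (us : List (Finset (Fin n))) (p : Finset (Fin n) × Finset (Fin n)) :
    p ∈ run σ us ↔ ∃ (i : ℕ) (h : i < us.length), p = (us[i], σ (run σ (us.take i)) us[i]) := by
  induction us using List.reverseRecOn with
  | nil => simp [run]
  | append_singleton us U ih =>
    rw [run_append, List.mem_append, ih]
    constructor
    · rintro (⟨i, h, rfl⟩ | h)
      · refine ⟨i, by simp; omega, ?_⟩
        rw [List.getElem_append_left h, List.take_append_of_le_length h.le]
      · rw [List.mem_singleton] at h
        subst h
        refine ⟨us.length, by simp, ?_⟩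
        simp
    · rintro ⟨i, h, rfl⟩
      rw [List.length_append, List.length_singleton] at h
      by_cases hi : i < us.length
      · left
        refine ⟨i, hi, ?_⟩
        rw [List.getElem_append_left hi, List.take_append_of_le_length hi.le]
      · right
        have : i = us.length := by omega
        subst this
        simp

theorem ans : AnsStatement := by
  intro r n t σ
  constructor
  · intro ω ω' i h
    have h1 : (List.ofFn fun j => (ω j).1).take i.1 = (List.ofFn fun j => (ω' j).1).take i.1 := by
      apply List.ext_getElem
      · simp
      · intro k h1 h2
        simp only [List.getElem_take, List.getElem_ofFn]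
        rw [h]
        rw [List.length_take] at h1
        rw [Fin.le_def]
        simp
        omega
    unfold ansOf
    rw [h1, h i le_rfl]
  · intro V E ω
    unfold HasCopy
    apply exists_congr
    intro φ
    apply forall_congr'
    intro f
    apply imp_congr_right
    intro _
    constructor
    · rintro ⟨p, hp, hpe⟩
      rw [mem_run] at hp
      obtain ⟨i, hi, rfl⟩ := hp
      have hi' : i < t := by simpa using hi
      refine ⟨⟨i, hi'⟩, ?_⟩
      rw [← hpe]
      simp [ansOf]
    · rintro ⟨i, hi⟩
      refine ⟨((ω i).1, ansOf σ t ω i), ?_, hi⟩
      rw [mem_run]
      refine ⟨i.1, by simp, ?_⟩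
      simp [ansOf]

end Pool.Agent.Lib.MP_426b05_co.H33
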