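import Pool.Agent.Lib.MP_426b05_co.Base

/-!
Small auxiliary facts on coloured maps.
-/

set_option autoImplicit false

namespace Pool.Agent.Lib.MP_426b05_co.H33

open Finset

variable {V : Type} [DecidableEq V] {n : ℕ}

/-- Coloured maps with the same image of `S` agree on `S`. -/
theorem eq_of_image {χ : Fin n → V} {φ φ' : V → Fin n} (h : ∀ a, χ (φ a) = a) (h' : ∀ a, χ (φ' a) = a)
    {S : Finset V} (hS : S.image φ = S.image φ') {a : V} (ha : a ∈ S) : φ a = φ' a := by
  have h1 : φ a ∈ S.image φ' := by rw [← hS]; exact mem_image_of_mem φ ha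
  obtain ⟨b, _, hb⟩ := mem_image.1 h1
  have h2 : b = a := by rw [← h' b, hb, h a]
  rw [← hb, h2]

theorem image_congr' {φ φ' : V → Fin n} {S : Finset V} (h : ∀ a ∈ S, φ a = φ' a) : S.image φ = S.image φ' := by
  apply Finset.ext
  intro x
  simp only [mem_image]
  constructor
  · rintro ⟨a, ha, rfl⟩; exact ⟨a, ha, (h a ha).symm⟩
  · rintro ⟨a, ha, rfl⟩; exact ⟨a, ha, h a ha⟩

end Pool.Agent.Lib.MP_426b05_co.H33
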