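import Pool.Agent.Lib.MP_426b05_co.H33.Mu

/-!
The characterisation for balanced hypergraphs, from the three main statements.
-/

set_option autoImplicit false

namespace Pool.Agent.Lib.MP_426b05_co.H33

open Finset Filter

theorem main (hLower : LowerStatement) (hFails : FailsStatement) (hSuff : SuffStatement)
    (r s : ℕ) (hr : 1 ≤ r) (hrs : r < s) (V : Type) [Fintype V] [DecidableEq V] (E : Finset (Finset V))
    (hE : ∀ e ∈ E, e.card = s) (hne : E.Nonempty)
    (hbal : (E.card : ℝ) / ((Fintype.card V : ℝ) - s + r) = mu r s E) :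
    (IsThreshold r s E (fun n => (n : ℝ) ^ ((r : ℝ) - 1 / mu r s E)) ↔ Constructible r s (1 / mu r s E) E) ∧
    (¬ Constructible r s (1 / mu r s E) E → ∃ ε : ℝ, 0 < ε ∧
      ∀ σ : ∀ n, Strat n, (∀ n, s ≤ n → Legal r s (σ n)) →
        Tendsto (fun n => prob r E (σ n) ⌈(n : ℝ) ^ ((r : ℝ) - 1 / mu r s E + ε)⌉₊) atTop (nhds 0)) := by
  have hmu := mu_pos hr E hE hne
  have hθ : 0 < 1 / mu r s E := by positivity
  have hθr := theta_le hr E hE hne
  have hvs : s ≤ Fintype.card V := by
    obtain ⟨e, he⟩ := hne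
    rw [← hE e he]; exact e.card_le_univ
  have hden : (0 : ℝ) < (Fintype.card V : ℝ) - s + r := by
    have h1 : (s : ℝ) ≤ Fintype.card V := by exact_mod_cast hvs
    have h2 : (1 : ℝ) ≤ r := by exact_mod_cast hr
    linarith
  have hEc : (0 : ℝ) < E.card := by exact_mod_cast hne.card_pos
  have hθE : 1 / mu r s E * E.card = (Fintype.card V : ℝ) - s + r := by
    rw [← hbal]
    field_simp
  have hfail := hFails V r s E hr hrs hE hne (1 / mu r s E) hθr hθE
  refine ⟨⟨?_, ?_⟩, hfail⟩
  · intro hthr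
    by_contra hnot
    obtain ⟨ε, hε, hf⟩ := hfail hnot
    obtain ⟨⟨σ, hσ, hs⟩, -⟩ := hthr
    have h0 := hf σ hσ
    have h1 := hs (fun n => ⌈(n : ℝ) ^ ((r : ℝ) - 1 / mu r s E + ε)⌉₊) ?_
    · exact zero_ne_one (tendsto_nhds_unique h0 h1)
    · refine tendsto_atTop_mono' atTop ?_ ((tendsto_rpow_atTop hε).comp tendsto_natCast_atTop_atTop)
      filter_upwards [eventually_ge_atTop 1] with n hn
      have hn0 : (0 : ℝ) < n := by exact_mod_cast hn
      simp only [Function.comp_apply]
      rw [le_div_iff₀ (by positivity), ← Real.rpow_add hn0]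
      refine le_trans (le_of_eq ?_) (Nat.le_ceil _)
      congr 1; ring
  · intro hC
    refine ⟨?_, hLower V r s E hr hrs hE hne _ hθE⟩
    obtain ⟨α, e, R, W, hplan⟩ := plan_of_constructible hrs E hE (1 / mu r s E) hθ (by
      intro W hW
      have h1 := le_mu (s := s) hr E W (E.filter fun e => e ⊆ W) hW (filter_subset _ _)
        (fun e he => (mem_filter.1 he).2)
      have h2 : (0 : ℝ) < (W.card : ℝ) - s + r := by
        have h3 : (s : ℝ) ≤ W.card := by exact_mod_cast hW
        have h4 : (1 : ℝ) ≤ r := by exact_mod_cast hr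
        linarith
      rw [div_le_iff₀ h2] at h1
      rw [one_div, inv_mul_le_iff₀ hmu]
      exact h1) hC
    exact hSuff V r s (1 / mu r s E) E α e R W hr hrs hE hne hθ hθr hplan

end Pool.Agent.Lib.MP_426b05_co.H33
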