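import Pool.Agent.Lib.MP_426b05_co.H33.Basic

/-!
Facts on `mu`, and: constructible + balanced gives a plan.
-/

set_option autoImplicit false

namespace Pool.Agent.Lib.MP_426b05_co.H33

open Finset

section
variable {V : Type} [Fintype V] [DecidableEq V] {r s : ℕ}

theorem mu_bdd (hr : 1 ≤ r) (E : Finset (Finset V)) :
    BddAbove {x : ℝ | ∃ (W : Finset V) (F : Finset (Finset V)), s ≤ W.card ∧ F ⊆ E ∧ (∀ e ∈ F, e ⊆ W) ∧
      x = (F.card : ℝ) / ((W.card : ℝ) - s + r)} := by
  refine ⟨(E.card : ℝ), ?_⟩
  rintro x ⟨W, F, hW, hF, -, rfl⟩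
  have h1 : (1 : ℝ) ≤ (W.card : ℝ) - s + r := by
    have : (s : ℝ) ≤ W.card := by exact_mod_cast hW
    have : (1 : ℝ) ≤ r := by exact_mod_cast hr
    linarith
  have h2 : (F.card : ℝ) ≤ E.card := by exact_mod_cast card_le_card hF
  calc (F.card : ℝ) / ((W.card : ℝ) - s + r) ≤ (F.card : ℝ) / 1 := by gcongr
    _ ≤ E.card := by simpa using h2

theorem le_mu (hr : 1 ≤ r) (E : Finset (Finset V)) (W : Finset V) (F : Finset (Finset V)) (hW : s ≤ W.card)
    (hF : F ⊆ E) (hFW : ∀ e ∈ F, e ⊆ W) : (F.card : ℝ) / ((W.card : ℝ) - s + r) ≤ mu r s E :=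
  le_csSup (mu_bdd hr E) ⟨W, F, hW, hF, hFW, rfl⟩

theorem inv_le_mu (hr : 1 ≤ r) (E : Finset (Finset V)) (hE : ∀ e ∈ E, e.card = s) (hne : E.Nonempty) :
    1 / (r : ℝ) ≤ mu r s E := by
  obtain ⟨e, he⟩ := hne
  have := le_mu (s := s) hr E e {e} (by rw [hE e he]) (by simpa using he) (by simp)
  rw [hE e he] at this
  simpa using this

theorem mu_pos (hr : 1 ≤ r) (E : Finset (Finset V)) (hE : ∀ e ∈ E, e.card = s) (hne : E.Nonempty) :
    0 < mu r s E := by
  have h := inv_le_mu hr E hE hne
  have : (0 : ℝ) < r := by exact_mod_cast hr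
  have : 0 < 1 / (r : ℝ) := by positivity
  linarith

theorem theta_le (hr : 1 ≤ r) (E : Finset (Finset V)) (hE : ∀ e ∈ E, e.card = s) (hne : E.Nonempty) :
    1 / mu r s E ≤ r := by
  have h := inv_le_mu hr E hE hne
  have hr0 : (0 : ℝ) < r := by exact_mod_cast hr
  rw [div_le_iff₀ (mu_pos hr E hE hne)]
  rw [div_le_iff₀ hr0] at h
  linarith

/-- The edge count as a sum over indices. -/
theorem eIn_take (l : List (Finset V)) (hl : l.Nodup) (j : ℕ) (hj : j ≤ l.length) (W : Finset V) :
    eIn (l.take j).toFinset W = (idx (fun i => if h : i < l.length then l[i] else ∅) j W).card := by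
  unfold eIn idx
  rw [← card_image_of_injOn (f := fun i => if h : i < l.length then l[i] else ∅)
    (s := (range j).filter fun i => (if h : i < l.length then l[i] else ∅) ⊆ W)]
  · congr 1
    ext e
    simp only [mem_filter, List.mem_toFinset, mem_image, mem_range]
    constructor
    · rintro ⟨h1, h2⟩
      rw [List.mem_take_iff_getElem] at h1
      obtain ⟨i, hi, rfl⟩ := h1
      have hi' : i < l.length := by omega
      refine ⟨i, ⟨by omega, ?_⟩, ?_⟩
      · rw [dif_pos hi']; exact h2
      · rw [dif_pos hi']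
    · rintro ⟨i, ⟨h1, h2⟩, rfl⟩
      have hi' : i < l.length := by omega
      rw [dif_pos hi'] at h2 ⊢
      refine ⟨?_, h2⟩
      rw [List.mem_take_iff_getElem]
      exact ⟨i, by omega, rfl⟩
  · intro a ha b hb hab
    simp only [coe_filter, mem_range, Set.mem_setOf_eq] at ha hb
    have ha' : a < l.length := by omega
    have hb' : b < l.length := by omega
    simp only [dif_pos ha', dif_pos hb'] at hab
    exact (List.Nodup.getElem_inj_iff hl).1 hab

theorem idx_mono (e : ℕ → Finset V) (i : ℕ) {W W' : Finset V} (h : W ⊆ W') :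
    (idx e i W).card ≤ (idx e i W').card := by
  apply card_le_card
  intro j hj
  unfold idx at *
  rw [mem_filter] at *
  exact ⟨hj.1, hj.2.trans h⟩

/-- A constructible hypergraph all of whose sub-hypergraphs satisfy `θ e ≤ v - s + r` has a plan. -/
theorem plan_of_constructible (hrs : r < s) (E : Finset (Finset V)) (hE : ∀ e ∈ E, e.card = s) (θ : ℝ)
    (hθ : 0 < θ) (hbal : ∀ W : Finset V, s ≤ W.card → θ * eIn E W ≤ (W.card : ℝ) - s + r)
    (hC : Constructible r s θ E) :
    ∃ (α : V → ℝ) (e R W : ℕ → Finset V), IsPlan r θ E α e R W := by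
  classical
  obtain ⟨C, l, hCc, hl, hlE, hadd⟩ := hC
  have hlen : l.length = E.card := by rw [← hlE, List.toFinset_card_of_nodup hl]
  choose R hR1 hR2 W hW1 hW2 using hadd
  set e : ℕ → Finset V := fun i => if h : i < l.length then l[i] else ∅ with he
  have hsum : ∀ X : Finset V, ∑ a ∈ X, (if a ∈ C then (0 : ℝ) else 1) = ((X \ C).card : ℝ) := by
    intro X
    rw [sum_ite, sum_const_zero, zero_add, sum_const, nsmul_eq_mul, mul_one, ← sdiff_eq_filter]
  have hk : ∀ X : Finset V, C ⊆ X → ((X \ C).card : ℝ) = (X.card : ℝ) - C.card := by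
    intro X hX
    rw [card_sdiff_of_subset hX]
    push_cast [card_le_card hX]
    ring
  refine ⟨fun a => if a ∈ C then 0 else 1, e, fun j => if h : j < l.length then R j h else ∅,
    fun j => if h : j < l.length then W j h else ∅, ⟨⟨?_, ?_, ?_, ?_⟩, ?_, ?_, ?_, ?_, ?_⟩⟩
  · intro j hj
    rw [← hlen] at hj
    simp only [he, dif_pos hj]
    rw [← hlE, List.mem_toFinset]
    exact List.getElem_mem hj
  · intro j hj j' hj' h
    rw [← hlen] at hj hj'
    simp only [he, dif_pos hj, dif_pos hj'] at h
    exact (List.Nodup.getElem_inj_iff hl).1 h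
  · intro j hj
    rw [← hlen] at hj
    simp only [he, dif_pos hj]
    exact (hR1 j hj).trans sdiff_subset
  · intro j hj
    rw [← hlen] at hj
    simp only [dif_pos hj]
    exact hR2 j hj
  · intro a; split_ifs <;> norm_num
  · intro a; split_ifs <;> norm_num
  · intro j hj
    rw [← hlen] at hj
    simp only [he, dif_pos hj]
    exact (subset_union_left).trans (hW1 j hj)
  · intro j hj W' hW'
    rw [← hlen] at hj
    simp only [dif_pos hj] at hW' ⊢
    have h1 := hW2 j hj (W' ∪ C) (union_subset_union hW' subset_rfl)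
    unfold pot at h1
    rw [eIn_take l hl j hj.le, eIn_take l hl j hj.le] at h1
    rw [hsum, hsum, hk (W j hj) ((subset_union_right).trans (hW1 j hj))]
    have h2 : ((W' \ C).card : ℝ) = ((W' ∪ C).card : ℝ) - C.card := by
      have h3 : (W' ∪ C) \ C = W' \ C := by
        ext a; simp only [mem_sdiff, mem_union]; tauto
      rw [← h3]
      exact hk _ subset_union_right
    rw [h2]
    have h4 : ((idx e j W').card : ℝ) ≤ (idx e j (W' ∪ C)).card := by
      exact_mod_cast idx_mono e j subset_union_left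
    have h5 : θ * ((idx e j W').card : ℝ) ≤ θ * (idx e j (W' ∪ C)).card := by gcongr
    have h6 : (idx (fun i => if h : i < l.length then l[i] else ∅) j (W' ∪ C)) = idx e j (W' ∪ C) := rfl
    have h7 : (idx (fun i => if h : i < l.length then l[i] else ∅) j (W j hj)) = idx e j (W j hj) := rfl
    rw [h6, h7] at h1
    linarith
  · intro W'
    rw [hsum]
    have h2 : ((W' \ C).card : ℝ) = ((W' ∪ C).card : ℝ) - C.card := by
      have h3 : (W' ∪ C) \ C = W' \ C := by
        ext a; simp only [mem_sdiff, mem_union]; tauto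
      rw [← h3]
      exact hk _ subset_union_right
    have h4 : ((idx e E.card W').card : ℝ) ≤ (idx e E.card (W' ∪ C)).card := by
      exact_mod_cast idx_mono e _ subset_union_left
    have h5 : (idx e E.card (W' ∪ C)).card = eIn E (W' ∪ C) := by
      rw [← hlen, he, ← eIn_take l hl l.length le_rfl, List.take_length, hlE]
    by_cases hs : s ≤ (W' ∪ C).card
    · have h6 := hbal _ hs
      rw [h2, hCc]
      have h7 : ((s - r : ℕ) : ℝ) = (s : ℝ) - r := by push_cast [hrs.le]; ring
      rw [h7]
      have h8 : θ * ((idx e E.card W').card : ℝ) ≤ θ * (eIn E (W' ∪ C) : ℝ) := by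
        rw [← h5]; gcongr
      linarith
    · have h6 : eIn E (W' ∪ C) = 0 := by
        unfold eIn
        rw [card_eq_zero, filter_eq_empty_iff]
        intro f hf hfW
        have := card_le_card hfW
        rw [hE f hf] at this
        exact hs this
      have h7 : ((idx e E.card W').card : ℝ) ≤ 0 := by
        rw [h5, h6] at h4; simpa using h4
      have h8 : ((idx e E.card W').card : ℝ) = 0 := le_antisymm h7 (by positivity)
      rw [h8, mul_zero]
      positivity

end

end Pool.Agent.Lib.MP_426b05_co.H33
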