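import Pool.Agent.Lib.MP_426b05_co.H33.Basic

/-!
(PAIR): first moment for the pairs of coloured copies agreeing on `T`.
-/

set_option autoImplicit false

namespace Pool.Agent.Lib.MP_426b05_co.H33

open Finset

section
variable {V : Type} [Fintype V] [DecidableEq V] {r n t i : ℕ}

/-- the type of (coloured map, times) -/
abbrev PP (V : Type) (n i t : ℕ) := (V → Fin n) × (Fin i → Fin t)

/-- the pairs with agreement set `W` and set of common times `J`. -/
def PairAt (A : Om r n t → Fin t → Finset (Fin n)) (χ : Fin n → V) (e R : ℕ → Finset V) (W : Finset V)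
    (J : Finset ℕ) (x : Om r n t × PP V n i t × PP V n i t) : Prop :=
  Valid A χ e R i x.1 x.2.1 ∧ Valid A χ e R i x.1 x.2.2 ∧ (∀ a, a ∈ W ↔ x.2.1.1 a = x.2.2.1 a) ∧
    ∀ j : Fin i, (j : ℕ) ∈ J ↔ x.2.1.2 j = x.2.2.2 j

/-- the index of a pair -/
def ind (C W : Finset V) (J : Finset ℕ) (x : Om r n t × PP V n i t × PP V n i t) :
    ({a : V // a ∉ C} → Fin n) × ({a : V // a ∉ W ∪ C} → Fin n) × (Fin i → Fin t) ×
      ({j : Fin i // (j : ℕ) ∉ J} → Fin t) :=
  (fun a => x.2.1.1 a.1, fun a => x.2.2.1 a.1, x.2.1.2, fun j => x.2.2.2 j.1)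

open Classical in
theorem fiber_bound (hP : PredStatement) (A : Om r n t → Fin t → Finset (Fin n)) (hA : Causal A)
    (χ : Fin n → V) (e R : ℕ → Finset V) (hi : 1 ≤ i)
    (hR : ∀ j < i, R j ⊆ e j) (hinj : ∀ j < i, ∀ j' < i, e j = e j' → j = j')
    (W : Finset V) (J : Finset ℕ) (hJ : J ⊆ range i)
    (y : ({a : V // a ∉ e 0 \ R 0} → Fin n) × ({a : V // a ∉ W ∪ (e 0 \ R 0)} → Fin n) × (Fin i → Fin t) ×
      ({j : Fin i // (j : ℕ) ∉ J} → Fin t)) :
    (univ.filter fun x : Om r n t × PP V n i t × PP V n i t =>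
      PairAt A χ e R W J x ∧ ind (e 0 \ R 0) W J x = y).card * Fintype.card (RS r n) ^ (2 * i - J.card) ≤
      Fintype.card (RS r n) ^ t := by
  set S := univ.filter fun x : Om r n t × PP V n i t × PP V n i t =>
      PairAt A χ e R W J x ∧ ind (e 0 \ R 0) W J x = y with hSdef
  obtain ⟨f1, f2, τ, τ2⟩ := y
  rcases S.eq_empty_or_nonempty with hS | ⟨x0, hx0⟩
  · rw [hS]; simp
  -- unfolding membership
  have hmem : ∀ x ∈ S, Valid A χ e R i x.1 x.2.1 ∧ Valid A χ e R i x.1 x.2.2 ∧
      (∀ a, a ∈ W ↔ x.2.1.1 a = x.2.2.1 a) ∧ (∀ j : Fin i, (j : ℕ) ∈ J ↔ x.2.1.2 j = x.2.2.2 j) ∧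
      (∀ a : {a : V // a ∉ e 0 \ R 0}, x.2.1.1 a.1 = f1 a) ∧
      (∀ a : {a : V // a ∉ W ∪ (e 0 \ R 0)}, x.2.2.1 a.1 = f2 a) ∧ x.2.1.2 = τ ∧
      (∀ j : {j : Fin i // (j : ℕ) ∉ J}, x.2.2.2 j.1 = τ2 j) := by
    intro x hx
    rw [hSdef, mem_filter] at hx
    obtain ⟨-, ⟨h1, h2, h3, h4⟩, h5⟩ := hx
    simp only [ind, Prod.mk.injEq] at h5
    exact ⟨h1, h2, h3, h4, fun a => congrFun h5.1 a, fun a => congrFun h5.2.1 a, h5.2.2.1,
      fun j => congrFun h5.2.2.2 j⟩
  -- the times of the second copy coincide for two members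
  have htime : ∀ x ∈ S, ∀ x' ∈ S, x.2.2.2 = x'.2.2.2 := by
    intro x hx x' hx'
    obtain ⟨-, -, -, h4, -, -, h7, h8⟩ := hmem x hx
    obtain ⟨-, -, -, h4', -, -, h7', h8'⟩ := hmem x' hx'
    funext j
    by_cases hj : (j : ℕ) ∈ J
    · rw [← (h4 j).1 hj, ← (h4' j).1 hj, h7, h7']
    · rw [h8 ⟨j, hj⟩, h8' ⟨j, hj⟩]
  -- if the answers at the first time of the first copy agree, so do the first copies
  have hfirst : ∀ x ∈ S, ∀ x' ∈ S, A x.1 (τ ⟨0, hi⟩) = A x'.1 (τ ⟨0, hi⟩) → ∀ a, x.2.1.1 a = x'.2.1.1 a := by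
    intro x hx x' hx' hAA a
    obtain ⟨⟨h1c, -, h1v⟩, -, -, -, h5, -, h7, -⟩ := hmem x hx
    obtain ⟨⟨h1c', -, h1v'⟩, -, -, -, h5', -, h7', -⟩ := hmem x' hx'
    by_cases ha : a ∈ e 0 \ R 0
    · refine eq_of_image h1c h1c' (S := e 0 \ R 0) ?_ ha
      have e1 := (h1v ⟨0, hi⟩).2
      have e2 := (h1v' ⟨0, hi⟩).2
      rw [h7] at e1
      rw [h7'] at e2
      simp only at e1 e2
      rw [← e1, ← e2, hAA]
    · rw [h5 ⟨a, ha⟩, h5' ⟨a, ha⟩]
  have hsecond : ∀ x ∈ S, ∀ x' ∈ S, A x.1 (x.2.2.2 ⟨0, hi⟩) = A x'.1 (x.2.2.2 ⟨0, hi⟩) →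
      (∀ a, a ∉ e 0 \ R 0 → x.2.2.1 a = x'.2.2.1 a) ∧
      ((∀ a, x.2.1.1 a = x'.2.1.1 a) → ∀ a, x.2.2.1 a = x'.2.2.1 a) ∧
      (∀ a ∈ e 0 \ R 0, x.2.2.1 a = x'.2.2.1 a) := by
    intro x hx x' hx' hAA
    have htt := htime x hx x' hx'
    obtain ⟨-, ⟨h2c, -, h2v⟩, h3, -, h5, h6, h7, -⟩ := hmem x hx
    obtain ⟨-, ⟨h2c', -, h2v'⟩, h3', -, h5', h6', h7', -⟩ := hmem x' hx'
    have hC : ∀ a ∈ e 0 \ R 0, x.2.2.1 a = x'.2.2.1 a := by
      intro a ha
      refine eq_of_image h2c h2c' (S := e 0 \ R 0) ?_ ha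
      have e1 := (h2v ⟨0, hi⟩).2
      have e2 := (h2v' ⟨0, hi⟩).2
      rw [← htt] at e2
      simp only at e1 e2
      rw [← e1, ← e2, hAA]
    have hN : ∀ a, a ∉ e 0 \ R 0 → x.2.2.1 a = x'.2.2.1 a := by
      intro a ha
      by_cases haW : a ∈ W
      · rw [← (h3 a).1 haW, ← (h3' a).1 haW, h5 ⟨a, ha⟩, h5' ⟨a, ha⟩]
      · have : a ∉ W ∪ (e 0 \ R 0) := by
          rw [mem_union]; push Not; exact ⟨haW, ha⟩
        rw [h6 ⟨a, this⟩, h6' ⟨a, this⟩]
    refine ⟨hN, fun _ a => ?_, hC⟩
    by_cases ha : a ∈ e 0 \ R 0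
    · exact hC a ha
    · exact hN a ha
  -- the set of the times
  set TT : Finset (Fin t) := univ.image τ ∪ univ.image τ2 with hTT
  have hcard : TT.card = 2 * i - J.card := by
    obtain ⟨⟨h1c, h1s, h1v⟩, ⟨h2c, h2s, h2v⟩, h3, h4, h5, h6, h7, h8⟩ := hmem x0 hx0
    have hτ2 : ∀ j, τ2 j = x0.2.2.2 j.1 := fun j => (h8 j).symm
    have hd : Disjoint (univ.image τ) (univ.image τ2) := by
      rw [Finset.disjoint_left]
      intro σ h1 h2
      obtain ⟨j, -, hj⟩ := mem_image.1 h1
      obtain ⟨l, -, hl⟩ := mem_image.1 h2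
      rw [hτ2] at hl
      rw [← h7] at hj
      have hsame : x0.2.1.2 j = x0.2.2.2 l.1 := by rw [hj, hl]
      by_cases hjl : j = l.1
      · rw [hjl] at hsame
        exact l.2 ((h4 l.1).2 hsame)
      · -- the edges would coincide
        have u1 := h1v j
        have u2 := h2v l.1
        rw [← hsame] at u2
        have v1 : (R j).image x0.2.1.1 = (R l.1).image x0.2.2.1 := by rw [← u1.1, ← u2.1]
        have v2 : (e j \ R j).image x0.2.1.1 = (e l.1 \ R l.1).image x0.2.2.1 := by rw [← u1.2, ← u2.2]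
        have v3 : (e j).image x0.2.1.1 = (e l.1).image x0.2.2.1 := by
          rw [← union_sdiff_of_subset (hR j j.2), ← union_sdiff_of_subset (hR l.1 l.1.2), image_union, image_union,
            v1, v2]
        have v4 : e j = e l.1 := by
          have := congrArg (Finset.image χ) v3
          rw [image_image, image_image] at this
          have w1 : (e j).image (χ ∘ x0.2.1.1) = e j := by
            have : (χ ∘ x0.2.1.1) = id := by funext a; exact h1c a
            rw [this, image_id]
          have w2 : (e l.1).image (χ ∘ x0.2.2.1) = e l.1 := by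
            have : (χ ∘ x0.2.2.1) = id := by funext a; exact h2c a
            rw [this, image_id]
          rw [w1, w2] at this
          exact this
        exact hjl (Fin.ext (hinj j j.2 l.1 l.1.2 v4))
    have c1 : (univ.image τ).card = i := by
      rw [card_image_of_injective _ (by rw [← h7]; exact h1s.injective)]; simp
    have c2 : (univ.image τ2).card = i - J.card := by
      rw [card_image_of_injective]
      · rw [card_univ, Fintype.card_subtype_compl (fun j : Fin i => (j : ℕ) ∈ J)]
        congr 1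
        · simp
        · rw [Fintype.card_subtype]
          have : (univ.filter fun j : Fin i => (j : ℕ) ∈ J).map Fin.valEmbedding = J := by
            ext j
            simp only [mem_map, mem_filter, mem_univ, true_and, Fin.valEmbedding_apply]
            constructor
            · rintro ⟨l, hl, rfl⟩; exact hl
            · intro hj
              exact ⟨⟨j, by simpa using hJ hj⟩, hj, rfl⟩
          rw [← this, card_map, this]
      · intro a b hab
        rw [hτ2, hτ2] at hab
        exact Subtype.ext (h2s.injective hab)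
    have c3 : J.card ≤ i := by simpa using card_le_card hJ
    rw [hTT, card_union_of_disjoint hd, c1, c2]
    omega
  -- injectivity
  have hinjS : Set.InjOn (fun x : Om r n t × PP V n i t × PP V n i t => x.1) (S : Set _) := by
    intro x hx x' hx' heq
    simp only at heq
    have hx1 := hx
    have hx1' := hx'
    rw [mem_coe] at hx1 hx1'
    have a1 := hfirst x hx1 x' hx1' (by rw [heq])
    have a2 := (hsecond x hx1 x' hx1' (by rw [heq])).2.1 a1
    obtain ⟨-, -, -, -, -, -, h7, -⟩ := hmem x hx1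
    obtain ⟨-, -, -, -, -, -, h7', -⟩ := hmem x' hx1'
    have b2 := htime x hx1 x' hx1'
    refine Prod.ext heq (Prod.ext (Prod.ext (funext a1) ?_) (Prod.ext (funext a2) b2))
    rw [h7, h7']
  have hcS : (S.image fun x => x.1).card = S.card := card_image_of_injOn hinjS
  have := hP (RS r n) t (S.image fun x => x.1) TT ?_
  · rw [hcS, hcard] at this; exact this
  · intro ω hω ω' hω' σ hσ hagree
    obtain ⟨x, hx, rfl⟩ := mem_image.1 hω
    obtain ⟨x', hx', rfl⟩ := mem_image.1 hω'
    have htt := htime x hx x' hx'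
    obtain ⟨⟨h1c, h1s, h1v⟩, ⟨h2c, h2s, h2v⟩, h3, h4, h5, h6, h7, h8⟩ := hmem x hx
    obtain ⟨⟨h1c', h1s', h1v'⟩, ⟨h2c', h2s', h2v'⟩, h3', h4', h5', h6', h7', h8'⟩ := hmem x' hx'
    rw [hTT, mem_union] at hσ
    apply Subtype.ext
    rcases hσ with hσ | hσ
    · obtain ⟨j, -, rfl⟩ := mem_image.1 hσ
      have u1 := (h1v j).1
      have u2 := (h1v' j).1
      rw [h7] at u1
      rw [h7'] at u2
      rw [u1, u2]
      apply image_congr'
      intro a ha
      by_cases haC : a ∈ e 0 \ R 0
      · have hj0 : (⟨0, hi⟩ : Fin i) < j := by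
          rw [Fin.lt_def]
          rcases Nat.eq_zero_or_pos j.1 with h0 | h0
          · exfalso
            rw [h0] at ha
            exact (mem_sdiff.1 haC).2 ha
          · exact h0
        have hlt : τ ⟨0, hi⟩ < τ j := by rw [← h7]; exact h1s hj0
        refine hfirst x hx x' hx' ?_ a
        apply hA
        intro l hl
        exact hagree l (lt_of_le_of_lt hl hlt)
      · rw [h5 ⟨a, haC⟩, h5' ⟨a, haC⟩]
    · obtain ⟨j, -, rfl⟩ := mem_image.1 hσ
      have u1 := (h2v j.1).1
      have u2 := (h2v' j.1).1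
      rw [h8 j] at u1
      rw [h8' j] at u2
      rw [u1, u2]
      apply image_congr'
      intro a ha
      by_cases haC : a ∈ e 0 \ R 0
      · have hj0 : (⟨0, hi⟩ : Fin i) < j.1 := by
          rw [Fin.lt_def]
          rcases Nat.eq_zero_or_pos j.1.1 with h0 | h0
          · exfalso
            rw [h0] at ha
            exact (mem_sdiff.1 haC).2 ha
          · exact h0
        have hlt : x.2.2.2 ⟨0, hi⟩ < τ2 j := by rw [← h8 j]; exact h2s hj0
        refine (hsecond x hx x' hx' ?_).2.2 a haC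
        apply hA
        intro l hl
        exact hagree l (lt_of_le_of_lt hl hlt)
      · by_cases haW : a ∈ W
        · rw [← (h3 a).1 haW, ← (h3' a).1 haW, h5 ⟨a, haC⟩, h5' ⟨a, haC⟩]
        · have : a ∉ W ∪ (e 0 \ R 0) := by
            rw [mem_union]; push Not; exact ⟨haW, haC⟩
          rw [h6 ⟨a, this⟩, h6' ⟨a, this⟩]

end

open Classical in
theorem sum_card_filter {α β : Type} [Fintype α] [Fintype β] (P : α → β → Prop) :
    ∑ a, (univ.filter (P a)).card = (univ.filter fun x : α × β => P x.1 x.2).card := by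
  simp only [card_filter, Fintype.sum_prod_type]

theorem pair (hP : PredStatement) : PairStatement := by
  classical
  intro V _ _ r n t k A hA χ e R i hi hR hk hinj T
  set N := Fintype.card (RS r n) with hN
  have h1 : ∑ ω : Om r n t, pairCnt A χ e R i T ω =
      (univ.filter fun x : Om r n t × PP V n i t × PP V n i t =>
        Valid A χ e R i x.1 x.2.1 ∧ Valid A χ e R i x.1 x.2.2 ∧ ∀ a ∈ T, x.2.1.1 a = x.2.2.1 a).card := by
    unfold pairCnt
    convert sum_card_filter (α := Om r n t) (β := PP V n i t × PP V n i t) (fun ω p =>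
      Valid A χ e R i ω p.1 ∧ Valid A χ e R i ω p.2 ∧ ∀ a ∈ T, p.1.1 a = p.2.1 a)
  have h2 : (univ.filter fun x : Om r n t × PP V n i t × PP V n i t =>
        Valid A χ e R i x.1 x.2.1 ∧ Valid A χ e R i x.1 x.2.2 ∧ ∀ a ∈ T, x.2.1.1 a = x.2.2.1 a).card ≤
      ∑ W ∈ univ.filter (fun W : Finset V => T ⊆ W), ∑ J ∈ (idx e i W).powerset,
        (univ.filter fun x : Om r n t × PP V n i t × PP V n i t => PairAt A χ e R W J x).card := by
    calc _ ≤ ((univ.filter (fun W : Finset V => T ⊆ W)).biUnion fun W => (idx e i W).powerset.biUnion fun J =>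
        univ.filter fun x : Om r n t × PP V n i t × PP V n i t => PairAt A χ e R W J x).card := by
          apply card_le_card
          intro x hx
          rw [mem_filter] at hx
          obtain ⟨-, hv1, hv2, hT⟩ := hx
          rw [mem_biUnion]
          refine ⟨univ.filter fun a => x.2.1.1 a = x.2.2.1 a, ?_, ?_⟩
          · rw [mem_filter]
            exact ⟨mem_univ _, fun a ha => by rw [mem_filter]; exact ⟨mem_univ _, hT a ha⟩⟩
          rw [mem_biUnion]
          refine ⟨(range i).filter fun j => ∃ h : j < i, x.2.1.2 ⟨j, h⟩ = x.2.2.2 ⟨j, h⟩, ?_, ?_⟩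
          · rw [mem_powerset]
            intro j hj
            rw [mem_filter] at hj
            obtain ⟨hj1, hj2, hj3⟩ := hj
            rw [idx, mem_filter]
            refine ⟨hj1, ?_⟩
            have u1 := hv1.2.2 ⟨j, hj2⟩
            have u2 := hv2.2.2 ⟨j, hj2⟩
            rw [← hj3] at u2
            intro a ha
            rw [mem_filter]
            refine ⟨mem_univ _, ?_⟩
            by_cases haR : a ∈ R j
            · exact eq_of_image hv1.1 hv2.1 (by rw [← u1.1, ← u2.1]) haR
            · exact eq_of_image hv1.1 hv2.1 (S := e j \ R j) (by rw [← u1.2, ← u2.2])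
                (mem_sdiff.2 ⟨ha, haR⟩)
          · rw [mem_filter]
            refine ⟨mem_univ _, hv1, hv2, ?_, ?_⟩
            · intro a; rw [mem_filter]; simp
            · intro j
              rw [mem_filter]
              constructor
              · rintro ⟨_, h, h'⟩; exact h'
              · intro h'
                exact ⟨mem_range.2 j.2, j.2, h'⟩
      _ ≤ _ := by
          refine card_biUnion_le.trans (sum_le_sum fun W _ => ?_)
          exact card_biUnion_le
  have h3 : ∀ (W : Finset V) (J : Finset ℕ), J ⊆ range i →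
      (univ.filter fun x : Om r n t × PP V n i t × PP V n i t => PairAt A χ e R W J x).card * N ^ (2 * i - J.card) ≤
        n ^ ((Fintype.card V - k) + (Fintype.card V - (W ∪ (e 0 \ R 0)).card)) * t ^ (2 * i - J.card) * N ^ t := by
    intro W J hJ
    have hJc : J.card ≤ i := by simpa using card_le_card hJ
    have e1 : (univ.filter fun x : Om r n t × PP V n i t × PP V n i t => PairAt A χ e R W J x).card =
        ∑ y, (univ.filter fun x : Om r n t × PP V n i t × PP V n i t =>
          PairAt A χ e R W J x ∧ ind (e 0 \ R 0) W J x = y).card := by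
      rw [card_eq_sum_card_fiberwise (f := ind (e 0 \ R 0) W J) (t := univ) (by intro x _; simp)]
      apply sum_congr rfl
      intro y _
      rw [filter_filter]
    rw [e1, sum_mul]
    calc _ ≤ ∑ y : ({a : V // a ∉ e 0 \ R 0} → Fin n) × ({a : V // a ∉ W ∪ (e 0 \ R 0)} → Fin n) ×
          (Fin i → Fin t) × ({j : Fin i // (j : ℕ) ∉ J} → Fin t), N ^ t := by
          apply sum_le_sum
          intro y _
          convert fiber_bound hP A hA χ e R hi hR hinj W J hJ y using 4
      _ = _ := by
          rw [sum_const, card_univ, smul_eq_mul]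
          congr 1
          rw [Fintype.card_prod, Fintype.card_prod, Fintype.card_prod, Fintype.card_fun, Fintype.card_fun,
            Fintype.card_fun, Fintype.card_fun, Fintype.card_subtype_compl (fun a : V => a ∈ e 0 \ R 0),
            Fintype.card_subtype_compl (fun a : V => a ∈ W ∪ (e 0 \ R 0)),
            Fintype.card_subtype_compl (fun j : Fin i => (j : ℕ) ∈ J)]
          have c1 : Fintype.card {j : Fin i // (j : ℕ) ∈ J} = J.card := by
            rw [Fintype.card_subtype]
            have : (univ.filter fun j : Fin i => (j : ℕ) ∈ J).map Fin.valEmbedding = J := by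
              ext j
              simp only [mem_map, mem_filter, mem_univ, true_and, Fin.valEmbedding_apply]
              constructor
              · rintro ⟨l, hl, rfl⟩; exact hl
              · intro hj
                exact ⟨⟨j, by simpa using hJ hj⟩, hj, rfl⟩
            rw [← this, card_map, this]
          have c2 : Fintype.card {a : V // a ∈ e 0 \ R 0} = k := by
            rw [Fintype.card_coe, hk]
          have c3 : Fintype.card {a : V // a ∈ W ∪ (e 0 \ R 0)} = (W ∪ (e 0 \ R 0)).card := Fintype.card_coe _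
          rw [c1, c2, c3, Fintype.card_fin, Fintype.card_fin, Fintype.card_fin, pow_add]
          have c4 : 2 * i - J.card = i + (i - J.card) := by omega
          rw [c4, pow_add]
          ring
  rw [h1]
  calc _ ≤ (∑ W ∈ univ.filter (fun W : Finset V => T ⊆ W), ∑ J ∈ (idx e i W).powerset,
        (univ.filter fun x : Om r n t × PP V n i t × PP V n i t => PairAt A χ e R W J x).card) * N ^ (2 * i) :=
          Nat.mul_le_mul_right _ h2
    _ ≤ _ := by
      rw [sum_mul, mul_sum]
      apply sum_le_sum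
      intro W _
      rw [sum_mul, mul_sum]
      apply sum_le_sum
      intro J hJ
      have hJr : J ⊆ range i := (mem_powerset.1 hJ).trans (filter_subset _ _)
      have hJc : J.card ≤ i := by simpa using card_le_card hJr
      have c4 : 2 * i = (2 * i - J.card) + J.card := by omega
      have c5 : N ^ (2 * i) = N ^ (2 * i - J.card) * N ^ J.card := by rw [← pow_add, ← c4]
      rw [c5, ← mul_assoc]
      calc _ ≤ (n ^ ((Fintype.card V - k) + (Fintype.card V - (W ∪ (e 0 \ R 0)).card)) * t ^ (2 * i - J.card) * N ^ t) *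
            N ^ J.card := Nat.mul_le_mul_right _ (h3 W J hJr)
        _ = _ := by ring

end Pool.Agent.Lib.MP_426b05_co.H33
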