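import Pool.Agent.Lib.MP_426b05_co.Base

/-!
(PRED): counting of sequences with predictable values at the times of `T`.
-/

set_option autoImplicit false

namespace Pool.Agent.Lib.MP_426b05_co.H33

open Finset

theorem pred : PredStatement := by
  classical
  intro α _ t S T h
  -- the restriction to the complement of `T` is injective on `S`
  have hinj : Set.InjOn (fun (ω : Fin t → α) (j : {j : Fin t // j ∉ T}) => ω j.1) (S : Set (Fin t → α)) := by
    intro ω hω ω' hω' heq
    have key : ∀ (k : ℕ) (j : Fin t), j.1 = k → ω j = ω' j := by
      intro k
      induction k using Nat.strong_induction_on with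
      | _ k ih =>
        intro j hj
        by_cases hT : j ∈ T
        · refine h ω hω ω' hω' j hT ?_
          intro l hl
          exact ih l.1 (by rw [← hj]; exact hl) l rfl
        · exact congrFun heq ⟨j, hT⟩
    funext j
    exact key j.1 j rfl
  have h1 : S.card ≤ Fintype.card ({j : Fin t // j ∉ T} → α) := by
    have := Finset.card_le_card_of_injOn (s := S) (t := (univ : Finset ({j : Fin t // j ∉ T} → α)))
      (fun (ω : Fin t → α) (j : {j : Fin t // j ∉ T}) => ω j.1) (by intro x _; simp) hinj
    simpa using this
  have h2 : Fintype.card ({j : Fin t // j ∉ T} → α) = Fintype.card α ^ (t - T.card) := by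
    rw [Fintype.card_fun]
    congr 1
    rw [Fintype.card_subtype_compl (fun j => j ∈ T)]
    simp
  have h3 : T.card ≤ t := by simpa using T.card_le_univ
  calc S.card * Fintype.card α ^ T.card ≤ Fintype.card α ^ (t - T.card) * Fintype.card α ^ T.card := by
        gcongr
        rw [← h2]; exact h1
    _ = Fintype.card α ^ t := by rw [← pow_add]; congr 1; omega

end Pool.Agent.Lib.MP_426b05_co.H33
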