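import Pool.Agent.Lib.MP_426b05_co.H33.Basic

/-!
(PROJ): first moment for the projections.
-/

set_option autoImplicit false

namespace Pool.Agent.Lib.MP_426b05_co.H33

open Finset

section
variable {V : Type} [Fintype V] [DecidableEq V] {r n t i : ℕ}

/-- `x = (ω, U)` has a copy with the given images and times. -/
def ProjAt (A : Om r n t → Fin t → Finset (Fin n)) (χ : Fin n → V) (e R : ℕ → Finset V) (X : Finset V)
    (I : Finset ℕ) (y : ({a : V // a ∈ X} → Fin n) × ({j : ℕ // j ∈ I} → Fin t)) (x : Om r n t × RS r n) : Prop :=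
  ∃ p : (V → Fin n) × (Fin i → Fin t), Valid A χ e R i x.1 p ∧ (R i).image p.1 = x.2.1 ∧
    (∀ a : {a : V // a ∈ X}, p.1 a.1 = y.1 a) ∧
    ∀ (j : {j : ℕ // j ∈ I}) (h : j.1 < i), p.2 ⟨j.1, h⟩ = y.2 j

open Classical in
theorem proj_fiber (hP : PredStatement) (A : Om r n t → Fin t → Finset (Fin n)) (hA : Causal A)
    (χ : Fin n → V) (e R : ℕ → Finset V) (W : Finset V) (hRW : R i ⊆ W) (j0 : ℕ) (hj0 : j0 ∈ idx e i W)
    (hmin : ∀ j ∈ idx e i W, j0 ≤ j) (hR : ∀ j < i, R j ⊆ e j)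
    (y : ({a : V // a ∈ W \ (e j0 \ R j0)} → Fin n) × ({j : ℕ // j ∈ idx e i W} → Fin t)) :
    (univ.filter fun x : Om r n t × RS r n =>
      ProjAt (i := i) A χ e R (W \ (e j0 \ R j0)) (idx e i W) y x).card * Fintype.card (RS r n) ^ (idx e i W).card ≤
      Fintype.card (RS r n) ^ t := by
  set S := univ.filter fun x : Om r n t × RS r n =>
      ProjAt (i := i) A χ e R (W \ (e j0 \ R j0)) (idx e i W) y x with hSdef
  rcases S.eq_empty_or_nonempty with hS | ⟨x0, hx0⟩
  · rw [hS]; simp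
  obtain ⟨f, τ⟩ := y
  have hj0i : j0 < i := by
    rw [idx, mem_filter] at hj0; exact mem_range.1 hj0.1
  have hj0W : e j0 ⊆ W := by
    rw [idx, mem_filter] at hj0; exact hj0.2
  have hidx : ∀ j ∈ idx e i W, j < i ∧ e j ⊆ W := by
    intro j hj
    rw [idx, mem_filter] at hj; exact ⟨mem_range.1 hj.1, hj.2⟩
  -- two copies with the same index agree on W as soon as the answers at the first time agree
  have hkey : ∀ (ω ω' : Om r n t) (p p' : (V → Fin n) × (Fin i → Fin t)),
      Valid A χ e R i ω p → Valid A χ e R i ω' p' →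
      (∀ a : {a : V // a ∈ W \ (e j0 \ R j0)}, p.1 a.1 = f a) →
      (∀ a : {a : V // a ∈ W \ (e j0 \ R j0)}, p'.1 a.1 = f a) →
      (∀ (j : {j : ℕ // j ∈ idx e i W}) (h : j.1 < i), p.2 ⟨j.1, h⟩ = τ j) →
      (∀ (j : {j : ℕ // j ∈ idx e i W}) (h : j.1 < i), p'.2 ⟨j.1, h⟩ = τ j) →
      A ω (τ ⟨j0, hj0⟩) = A ω' (τ ⟨j0, hj0⟩) → ∀ a ∈ W, p.1 a = p'.1 a := by
    intro ω ω' p p' hv hv' hf hf' hτ hτ' hAA a ha
    by_cases haC : a ∈ e j0 \ R j0
    · refine eq_of_image hv.1 hv'.1 (S := e j0 \ R j0) ?_ haC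
      have e1 := (hv.2.2 ⟨j0, hj0i⟩).2
      have e2 := (hv'.2.2 ⟨j0, hj0i⟩).2
      rw [hτ ⟨j0, hj0⟩ hj0i] at e1
      rw [hτ' ⟨j0, hj0⟩ hj0i] at e2
      simp only at e1 e2
      rw [← e1, ← e2, hAA]
    · have : a ∈ W \ (e j0 \ R j0) := mem_sdiff.2 ⟨ha, haC⟩
      rw [hf ⟨a, this⟩, hf' ⟨a, this⟩]
  have hmemS : ∀ x ∈ S, ∃ p : (V → Fin n) × (Fin i → Fin t), Valid A χ e R i x.1 p ∧ (R i).image p.1 = x.2.1 ∧
      (∀ a : {a : V // a ∈ W \ (e j0 \ R j0)}, p.1 a.1 = f a) ∧
      ∀ (j : {j : ℕ // j ∈ idx e i W}) (h : j.1 < i), p.2 ⟨j.1, h⟩ = τ j := by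
    intro x hx
    rw [hSdef, mem_filter] at hx
    exact hx.2
  have hinjS : Set.InjOn (fun x : Om r n t × RS r n => x.1) (S : Set _) := by
    intro x hx x' hx' heq
    simp only at heq
    obtain ⟨p, hv, hU, hf, hτ⟩ := hmemS x hx
    obtain ⟨p', hv', hU', hf', hτ'⟩ := hmemS x' hx'
    have hag := hkey x.1 x'.1 p p' hv hv' hf hf' hτ hτ' (by rw [heq])
    refine Prod.ext heq (Subtype.ext ?_)
    rw [← hU, ← hU']
    exact image_congr' fun a ha => hag a (hRW ha)
  have hcS : (S.image fun x => x.1).card = S.card := card_image_of_injOn hinjS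
  set TT : Finset (Fin t) := univ.image τ with hTT
  have hcard : TT.card = (idx e i W).card := by
    obtain ⟨p, hv, hU, hf, hτ⟩ := hmemS x0 hx0
    rw [hTT, card_image_of_injective]
    · simp
    · intro a b hab
      have h1 := hτ a (hidx a.1 a.2).1
      have h2 := hτ b (hidx b.1 b.2).1
      rw [hab, ← h2] at h1
      have := hv.2.1.injective h1
      exact Subtype.ext (Fin.mk.inj_iff.1 this)
  have := hP (RS r n) t (S.image fun x => x.1) TT ?_
  · rw [hcS, hcard] at this; exact this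
  · intro ω hω ω' hω' σ hσ hagree
    obtain ⟨x, hx, rfl⟩ := mem_image.1 hω
    obtain ⟨x', hx', rfl⟩ := mem_image.1 hω'
    obtain ⟨p, hv, hU, hf, hτ⟩ := hmemS x hx
    obtain ⟨p', hv', hU', hf', hτ'⟩ := hmemS x' hx'
    obtain ⟨j, -, rfl⟩ := mem_image.1 hσ
    have hji := (hidx j.1 j.2).1
    apply Subtype.ext
    have u1 := (hv.2.2 ⟨j.1, hji⟩).1
    have u2 := (hv'.2.2 ⟨j.1, hji⟩).1
    rw [hτ j hji] at u1
    rw [hτ' j hji] at u2
    rw [u1, u2]
    apply image_congr'
    intro a ha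
    have haW : a ∈ W := (hidx j.1 j.2).2 (hR _ hji ha)
    by_cases haC : a ∈ e j0 \ R j0
    · have hne : j0 ≠ j.1 := by
        rintro h0
        have ha' : a ∈ R j.1 := ha
        rw [← h0] at ha'
        exact (mem_sdiff.1 haC).2 ha'
      have hlt : τ ⟨j0, hj0⟩ < τ j := by
        rw [← hτ ⟨j0, hj0⟩ hj0i, ← hτ j hji]
        apply hv.2.1
        rw [Fin.lt_def]
        exact lt_of_le_of_ne (hmin j.1 j.2) hne
      refine hkey x.1 x'.1 p p' hv hv' hf hf' hτ hτ' ?_ a haW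
      apply hA
      intro l hl
      exact hagree l (lt_of_le_of_lt hl hlt)
    · have : a ∈ W \ (e j0 \ R j0) := mem_sdiff.2 ⟨haW, haC⟩
      rw [hf ⟨a, this⟩, hf' ⟨a, this⟩]

end

open Classical in
theorem sum_card_filter' {α β : Type} [Fintype α] [Fintype β] (P : α → β → Prop) :
    ∑ a, (univ.filter (P a)).card = (univ.filter fun x : α × β => P x.1 x.2).card := by
  simp only [card_filter, Fintype.sum_prod_type]

theorem proj (hP : PredStatement) : ProjStatement := by
  classical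
  intro V _ _ r n t k A hA χ e R i W hRW hne hpat
  set N := Fintype.card (RS r n) with hN
  obtain ⟨j0, hj0, hmin⟩ : ∃ j0 ∈ idx e i W, ∀ j ∈ idx e i W, j0 ≤ j :=
    ⟨(idx e i W).min' hne, min'_mem _ _, fun j hj => min'_le _ j hj⟩
  have hj0i : j0 < i := by
    rw [idx, mem_filter] at hj0; exact mem_range.1 hj0.1
  have hj0W : e j0 ⊆ W := by
    rw [idx, mem_filter] at hj0; exact hj0.2
  have h1 : ∑ ω : Om r n t, projCnt A χ e R i ω =
      (univ.filter fun x : Om r n t × RS r n => ∃ p : (V → Fin n) × (Fin i → Fin t),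
        Valid A χ e R i x.1 p ∧ (R i).image p.1 = x.2.1).card := by
    unfold projCnt
    convert sum_card_filter' (α := Om r n t) (β := RS r n) (fun ω U =>
      ∃ p : (V → Fin n) × (Fin i → Fin t), Valid A χ e R i ω p ∧ (R i).image p.1 = U.1)
  have h2 : (univ.filter fun x : Om r n t × RS r n => ∃ p : (V → Fin n) × (Fin i → Fin t),
        Valid A χ e R i x.1 p ∧ (R i).image p.1 = x.2.1).card ≤
      ∑ y, (univ.filter fun x : Om r n t × RS r n =>
        ProjAt (i := i) A χ e R (W \ (e j0 \ R j0)) (idx e i W) y x).card := by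
    refine le_trans (card_le_card ?_) (card_biUnion_le (s := univ) (t := fun y =>
      univ.filter fun x : Om r n t × RS r n =>
        ProjAt (i := i) A χ e R (W \ (e j0 \ R j0)) (idx e i W) y x))
    intro x hx
    rw [mem_filter] at hx
    obtain ⟨-, p, hv, hU⟩ := hx
    have hidx : ∀ j : {j : ℕ // j ∈ idx e i W}, j.1 < i := by
      intro j
      have h5 : j.1 ∈ (range i).filter fun j => e j ⊆ W := j.2
      exact mem_range.1 (mem_filter.1 h5).1
    rw [mem_biUnion]
    refine ⟨(fun a => p.1 a.1, fun j => p.2 ⟨j.1, hidx j⟩), mem_univ _, ?_⟩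
    rw [mem_filter]
    exact ⟨mem_univ _, p, hv, hU, fun a => rfl, fun j h => rfl⟩
  rw [h1]
  calc _ ≤ (∑ y, (univ.filter fun x : Om r n t × RS r n =>
        ProjAt (i := i) A χ e R (W \ (e j0 \ R j0)) (idx e i W) y x).card) * N ^ (idx e i W).card :=
          Nat.mul_le_mul_right _ h2
    _ ≤ ∑ y : ({a : V // a ∈ W \ (e j0 \ R j0)} → Fin n) × ({j : ℕ // j ∈ idx e i W} → Fin t), N ^ t := by
          rw [sum_mul]
          apply sum_le_sum
          intro y _
          convert proj_fiber hP A hA χ e R W hRW j0 hj0 hmin (fun j hj => (hpat j hj).1) y using 4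
    _ = _ := by
          rw [sum_const, card_univ, smul_eq_mul, Fintype.card_prod, Fintype.card_fun, Fintype.card_fun,
            Fintype.card_fin, Fintype.card_fin, Fintype.card_coe, Fintype.card_coe,
            card_sdiff_of_subset (sdiff_subset.trans hj0W), (hpat j0 hj0i).2]
          ring

end Pool.Agent.Lib.MP_426b05_co.H33
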