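import Pool.Agent.Lib.MP_426b05_co.H33.Ans

/-!
(UNION): the probability of a copy is at most a constant times the largest expected number of coloured copies of a
pattern.
-/

set_option autoImplicit false

namespace Pool.Agent.Lib.MP_426b05_co.H33

open Finset

section
variable {V : Type} [Fintype V] [DecidableEq V]

/-- The first components of a finite pattern, extended by `∅`. -/
def ext1 {m : ℕ} (P : Fin m → Finset V × Finset V) (j : ℕ) : Finset V := if h : j < m then (P ⟨j, h⟩).1 else ∅

/-- The second components of a finite pattern, extended by `∅`. -/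
def ext2 {m : ℕ} (P : Fin m → Finset V × Finset V) (j : ℕ) : Finset V := if h : j < m then (P ⟨j, h⟩).2 else ∅

/-- The colourings for which a given injective map is coloured. -/
theorem card_colourings {n : ℕ} (φ : V ↪ Fin n) :
    (univ.filter fun χ : Fin n → V => ∀ a, χ (φ a) = a).card * Fintype.card V ^ Fintype.card V =
      Fintype.card V ^ n := by
  classical
  have h1 : (univ.filter fun χ : Fin n → V => ∀ a, χ (φ a) = a) =
      Fintype.piFinset (fun x : Fin n => if h : ∃ a, φ a = x then {h.choose} else (univ : Finset V)) := by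
    ext χ
    simp only [mem_filter, mem_univ, true_and, Fintype.mem_piFinset]
    constructor
    · intro h x
      split_ifs with hx
      · rw [mem_singleton]
        have := h hx.choose
        rw [hx.choose_spec] at this
        exact this
      · exact mem_univ _
    · intro h a
      have := h (φ a)
      rw [dif_pos ⟨a, rfl⟩, mem_singleton] at this
      rw [this]
      exact φ.injective (⟨a, rfl⟩ : ∃ b, φ b = φ a).choose_spec
  have h2 : ∀ x : Fin n, (if h : ∃ a, φ a = x then {h.choose} else (univ : Finset V)).card =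
      if x ∈ univ.map φ then 1 else Fintype.card V := by
    intro x
    by_cases hx : ∃ a, φ a = x
    · rw [dif_pos hx, if_pos (by simpa using hx), card_singleton]
    · rw [dif_neg hx, if_neg (by simpa using hx), card_univ]
  rw [h1, Fintype.card_piFinset, prod_congr rfl fun x _ => h2 x, prod_ite, prod_const, prod_const, one_pow, one_mul,
    ← pow_add]
  congr 1
  have h3 : (univ.filter fun x : Fin n => x ∉ univ.map φ).card = n - Fintype.card V := by
    rw [filter_not, filter_mem_eq_inter, univ_inter, card_sdiff_of_subset (subset_univ _), card_map, card_univ,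
      card_univ, Fintype.card_fin]
  have h4 : Fintype.card V ≤ n := by simpa using Fintype.card_le_of_embedding φ
  rw [h3]
  omega

/-- A copy gives a pattern and increasing times. -/
theorem extract {r s n t : ℕ} (E : Finset (Finset V)) (σ : Strat n) (hσ : Legal r s σ) (ω : Om r n t)
    (φ : V ↪ Fin n) (h : ∀ f ∈ E, ∃ i : Fin t, (ω i).1 ∪ ansOf σ t ω i = f.map φ) :
    ∃ P : Fin E.card → Finset V × Finset V, IsPattern r E (ext1 P) (ext2 P) ∧
      ∃ τ : Fin E.card → Fin t, ∀ χ : Fin n → V, (∀ a, χ (φ a) = a) →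
        Valid (ansOf σ t) χ (ext1 P) (ext2 P) E.card ω (φ, τ) := by
  classical
  choose T hT using h
  have hTinj : Function.Injective (fun f : {f // f ∈ E} => T f.1 f.2) := by
    intro f g hfg
    have h1 := hT f.1 f.2
    have h2 := hT g.1 g.2
    simp only at hfg
    rw [hfg, h2] at h1
    exact Subtype.ext (Finset.map_injective φ h1.symm)
  have hcard : (univ.image (fun f : {f // f ∈ E} => T f.1 f.2)).card = E.card := by
    rw [card_image_of_injective _ hTinj]; simp
  set τ := (univ.image (fun f : {f // f ∈ E} => T f.1 f.2)).orderEmbOfFin hcard with hτ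
  have hex : ∀ j : Fin E.card, ∃ f : {f // f ∈ E}, T f.1 f.2 = τ j := by
    intro j
    have := orderEmbOfFin_mem (univ.image (fun f : {f // f ∈ E} => T f.1 f.2)) hcard j
    obtain ⟨f, -, hf⟩ := mem_image.1 this
    exact ⟨f, hf⟩
  choose g hg using hex
  have hU : ∀ j, (ω (τ j)).1 ∪ ansOf σ t ω (τ j) = (g j).1.map φ := by
    intro j
    rw [← hg j]
    exact hT _ _
  have hsub : ∀ j, (univ.filter fun a => φ a ∈ (ω (τ j)).1) ⊆ (g j).1 := by
    intro j a ha
    rw [mem_filter] at ha
    have : φ a ∈ (g j).1.map φ := by rw [← hU j]; exact mem_union_left _ ha.2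
    simpa using this
  have himg : ∀ j, (univ.filter fun a => φ a ∈ (ω (τ j)).1).image φ = (ω (τ j)).1 := by
    intro j
    ext x
    rw [mem_image]
    constructor
    · rintro ⟨a, ha, rfl⟩
      exact (mem_filter.1 ha).2
    · intro hx
      have : x ∈ (g j).1.map φ := by rw [← hU j]; exact mem_union_left _ hx
      obtain ⟨a, -, rfl⟩ := mem_map.1 this
      exact ⟨a, mem_filter.2 ⟨mem_univ _, hx⟩, rfl⟩
  have hans : ∀ j, ansOf σ t ω (τ j) = ((g j).1 \ univ.filter fun a => φ a ∈ (ω (τ j)).1).image φ := by
    intro j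
    have hdis : Disjoint (ω (τ j)).1 (ansOf σ t ω (τ j)) := (hσ _ _ (ω (τ j)).2).2
    ext x
    rw [mem_image]
    constructor
    · intro hx
      have : x ∈ (g j).1.map φ := by rw [← hU j]; exact mem_union_right _ hx
      obtain ⟨a, ha, rfl⟩ := mem_map.1 this
      refine ⟨a, mem_sdiff.2 ⟨ha, ?_⟩, rfl⟩
      intro h2
      exact (Finset.disjoint_left.1 hdis) (mem_filter.1 h2).2 hx
    · rintro ⟨a, ha, rfl⟩
      rw [mem_sdiff, mem_filter] at ha
      have : φ a ∈ (g j).1.map φ := mem_map_of_mem φ ha.1
      rw [← hU j, mem_union] at this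
      rcases this with h1 | h1
      · exact absurd ⟨mem_univ _, h1⟩ ha.2
      · exact h1
  refine ⟨fun j => ((g j).1, univ.filter fun a => φ a ∈ (ω (τ j)).1), ⟨?_, ?_, ?_, ?_⟩, τ, ?_⟩
  · intro j hj
    simp only [ext1, dif_pos hj]
    exact (g ⟨j, hj⟩).2
  · intro j hj j' hj' heq
    simp only [ext1, dif_pos hj, dif_pos hj'] at heq
    have h1 : g ⟨j, hj⟩ = g ⟨j', hj'⟩ := Subtype.ext heq
    have h2 : τ ⟨j, hj⟩ = τ ⟨j', hj'⟩ := by rw [← hg, ← hg, h1]
    have := τ.injective h2
    exact Fin.mk.inj_iff.1 this
  · intro j hj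
    simp only [ext1, ext2, dif_pos hj]
    exact hsub _
  · intro j hj
    simp only [ext2, dif_pos hj]
    rw [← card_image_of_injective _ φ.injective, himg]
    exact (ω (τ ⟨j, hj⟩)).2
  · intro χ hχ
    refine ⟨hχ, τ.strictMono, ?_⟩
    intro j
    simp only [ext1, ext2, dif_pos j.2]
    exact ⟨(himg j).symm, hans j⟩

end

theorem union : UnionStatement := by
  classical
  intro V _ _ r s n t E hrs hE hne σ hσ b hb hN H
  set N := Fintype.card (RS r n) with hNdef
  set v := Fintype.card V with hv
  -- V is nonempty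
  have hvpos : 0 < v := by
    obtain ⟨f, hf⟩ := hne
    have h1 := hE f hf
    have h2 : f.card ≤ v := f.card_le_univ
    omega
  -- the set of the successful sequences
  set G : Finset (Om r n t) := univ.filter fun ω => HasCopy E (run σ (List.ofFn fun i => (ω i).1)) with hG
  have hprob : prob r E σ t = (G.card : ℝ) / (N : ℝ) ^ t := by
    unfold prob
    have h1 : Nat.card {u : Fin t → RS r n // HasCopy E (run σ (List.ofFn fun i => (u i).1))} = G.card := by
      rw [Nat.card_eq_fintype_card, Fintype.card_subtype]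
    have h2 : Nat.card (Fin t → RS r n) = N ^ t := by
      rw [Nat.card_eq_fintype_card, Fintype.card_fun, Fintype.card_fin]
    rw [h1, h2]
    push_cast
    rfl
  -- pointwise
  have hpt : ∀ ω ∈ G, v ^ n ≤ v ^ v * ∑ χ : Fin n → V, ∑ P : Fin E.card → Finset V × Finset V,
      if IsPattern r E (ext1 P) (ext2 P) then cnt (ansOf σ t) χ (ext1 P) (ext2 P) E.card ω else 0 := by
    intro ω hω
    rw [hG, mem_filter] at hω
    obtain ⟨φ, hφ⟩ := ((ans r n t σ).2 V E ω).1 hω.2
    obtain ⟨P, hP, τ, hτ⟩ := extract E σ hσ ω φ hφ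
    rw [← card_colourings φ, mul_comm]
    gcongr
    calc (univ.filter fun χ : Fin n → V => ∀ a, χ (φ a) = a).card
        = ∑ χ ∈ univ.filter (fun χ : Fin n → V => ∀ a, χ (φ a) = a), 1 := by simp
      _ ≤ ∑ χ ∈ univ.filter (fun χ : Fin n → V => ∀ a, χ (φ a) = a),
          ∑ P : Fin E.card → Finset V × Finset V,
            if IsPattern r E (ext1 P) (ext2 P) then cnt (ansOf σ t) χ (ext1 P) (ext2 P) E.card ω else 0 := by
            apply sum_le_sum
            intro χ hχ
            rw [mem_filter] at hχ
            refine le_trans ?_ (single_le_sum (f := fun P : Fin E.card → Finset V × Finset V =>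
              if IsPattern r E (ext1 P) (ext2 P) then cnt (ansOf σ t) χ (ext1 P) (ext2 P) E.card ω else 0)
              (fun _ _ => Nat.zero_le _) (mem_univ P))
            simp only [if_pos hP]
            unfold cnt
            rw [Nat.one_le_iff_ne_zero, ← Nat.pos_iff_ne_zero, card_pos]
            exact ⟨(φ, τ), mem_filter.2 ⟨mem_univ _, hτ χ hχ.2⟩⟩
      _ ≤ _ := sum_le_sum_of_subset (filter_subset _ _)
  have hsum : G.card * v ^ n ≤ v ^ v * ∑ χ : Fin n → V, ∑ P : Fin E.card → Finset V × Finset V, ∑ ω : Om r n t,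
      if IsPattern r E (ext1 P) (ext2 P) then cnt (ansOf σ t) χ (ext1 P) (ext2 P) E.card ω else 0 := by
    calc G.card * v ^ n = ∑ ω ∈ G, v ^ n := by simp
      _ ≤ ∑ ω ∈ G, v ^ v * ∑ χ : Fin n → V, ∑ P : Fin E.card → Finset V × Finset V,
          (if IsPattern r E (ext1 P) (ext2 P) then cnt (ansOf σ t) χ (ext1 P) (ext2 P) E.card ω else 0) :=
          sum_le_sum hpt
      _ ≤ ∑ ω : Om r n t, v ^ v * ∑ χ : Fin n → V, ∑ P : Fin E.card → Finset V × Finset V,
          (if IsPattern r E (ext1 P) (ext2 P) then cnt (ansOf σ t) χ (ext1 P) (ext2 P) E.card ω else 0) :=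
          sum_le_sum_of_subset (subset_univ _)
      _ = _ := by
          rw [← mul_sum]
          congr 1
          rw [sum_comm]
          apply sum_congr rfl
          intro χ _
          rw [sum_comm]
  have hNt : (0 : ℝ) < (N : ℝ) ^ t := by positivity
  have hreal : (G.card : ℝ) * (v : ℝ) ^ n ≤ (v : ℝ) ^ v * ((v : ℝ) ^ n * ((2 ^ v * 2 ^ v) ^ E.card *
      (b * (N : ℝ) ^ t))) := by
    have h0 : ((G.card * v ^ n : ℕ) : ℝ) ≤ ((v ^ v * ∑ χ : Fin n → V, ∑ P : Fin E.card → Finset V × Finset V,
      ∑ ω : Om r n t, if IsPattern r E (ext1 P) (ext2 P) then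
        cnt (ansOf σ t) χ (ext1 P) (ext2 P) E.card ω else 0 : ℕ) : ℝ) := by exact_mod_cast hsum
    push_cast at h0
    refine h0.trans ?_
    gcongr
    calc _ ≤ ∑ χ : Fin n → V, ∑ P : Fin E.card → Finset V × Finset V, b * (N : ℝ) ^ t := by
          apply sum_le_sum
          intro χ _
          apply sum_le_sum
          intro P _
          by_cases hP : IsPattern r E (ext1 P) (ext2 P)
          · simp only [if_pos hP]
            have := H χ (ext1 P) (ext2 P) hP
            rwa [div_le_iff₀ hNt] at this
          · simp only [if_neg hP, sum_const_zero]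
            positivity
      _ = _ := by
          rw [sum_const, sum_const, card_univ, card_univ, Fintype.card_fun, Fintype.card_fun, Fintype.card_prod,
            Fintype.card_finset, Fintype.card_fin, Fintype.card_fin]
          simp only [nsmul_eq_mul]
          push_cast
          ring
  rw [hprob, div_le_iff₀ hNt]
  have hvn : (0 : ℝ) < (v : ℝ) ^ n := by positivity
  have h5 : (G.card : ℝ) * (v : ℝ) ^ n ≤ ((v : ℝ) ^ v * (2 ^ v * 2 ^ v) ^ E.card * b * (N : ℝ) ^ t) *
      (v : ℝ) ^ n := by
    refine hreal.trans (le_of_eq ?_)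
    ring
  exact le_of_mul_le_mul_right h5 hvn

end Pool.Agent.Lib.MP_426b05_co.H33
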